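import Mathlib

open Finset

namespace Pool.Agent.H.MP_e4803a_nt

def ind (x : ℤ) : ℤ := if x = 0 then 1 else 0

def K1 (y : Fin 6 → ℤ) : ℤ := 1 - 15 * ind (y 0 + y 1) - 10 * ind (y 0 + y 1 + y 2) +
  30 * (ind (y 0 + y 1) * ind (y 2 + y 3))

def KK (y : Fin 6 → ℤ) : ℤ := ∑ σ : Equiv.Perm (Fin 6), K1 (y ∘ σ)

lemma KK_perm (y : Fin 6 → ℤ) (τ : Equiv.Perm (Fin 6)) : KK (y ∘ τ) = KK y := by
  unfold KK
  exact Equiv.sum_comp (Equiv.mulLeft τ) (fun σ : Equiv.Perm (Fin 6) => K1 (y ∘ σ))

lemma K1_ge (y : Fin 6 → ℤ) : -25 ≤ K1 y := by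
  unfold K1 ind; split_ifs <;> norm_num

lemma KK_ge (y : Fin 6 → ℤ) : -18000 ≤ KK y := by
  have h : ∑ _σ : Equiv.Perm (Fin 6), (-25 : ℤ) ≤ KK y := sum_le_sum fun σ _ => K1_ge _
  simp [Fintype.card_perm, Nat.factorial] at h
  exact h

def NoTri (y : Fin 6 → ℤ) : Prop := ∀ i j k, i ≠ j → i ≠ k → j ≠ k → y i + y j + y k ≠ 0

lemma cmp (y y0 : Fin 6 → ℤ) (h2 : ∀ i j, i ≠ j → (y i + y j = 0 ↔ y0 i + y0 j = 0))
    (h3 : ∀ i j k, i ≠ j → i ≠ k → j ≠ k → y i + y j + y k = 0 → y0 i + y0 j + y0 k = 0) :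
    KK y0 ≤ KK y := by
  refine sum_le_sum fun σ _ => ?_
  have a := h2 (σ 0) (σ 1) (by simp)
  have b := h2 (σ 2) (σ 3) (by simp)
  have c := h3 (σ 0) (σ 1) (σ 2) (by simp) (by simp) (by simp)
  simp only [K1, ind, Function.comp, a, b]
  split_ifs <;> simp_all

set_option maxRecDepth 100000 in
lemma v1 : KK ![1, 1, 1, 1, 1, 1] = 720 := by decide +kernel

set_option maxRecDepth 100000 in
lemma v2 : KK ![1, 2, -3, 10, 20, -30] = 0 := by decide +kernel

set_option maxRecDepth 100000 in
lemma v3 : KK ![9, 9, 9, 9, 1, -1] = 0 := by decide +kernel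

set_option maxRecDepth 100000 in
lemma v4 : ∀ p ∈ ([(1, 1), (1, -1), (1, 99), (-1, 1), (-1, -1), (-1, 99), (9, 1), (9, -1), (9, 9),
    (9, -9), (9, 99)] : List (ℤ × ℤ)), 0 ≤ KK ![1, -1, p.1, -p.1, p.2, -p.2] := by decide +kernel

lemma L_none (y : Fin 6 → ℤ) (h2 : ∀ i j, i ≠ j → y i + y j ≠ 0) (h3 : NoTri y) : 720 ≤ KK y := by
  rw [← v1]
  refine cmp _ _ (fun i j h => ?_) (fun i j k a b c h => (h3 i j k a b c h).elim)
  have := h2 i j h
  fin_cases i <;> fin_cases j <;> simp_all

lemma L_tri (y : Fin 6 → ℤ) (nz : ∀ i, y i ≠ 0) (h1 : y 0 + y 1 + y 2 = 0)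
    (h2 : y 3 + y 4 + y 5 = 0)
    (hx : ∀ a d : Fin 6, a.1 < 3 → 3 ≤ d.1 → (y d).natAbs ≠ (y a).natAbs) : 0 ≤ KK y := by
  rw [← v2]
  have P : ∀ i j, i ≠ j → y i + y j ≠ 0 := by
    intro i j h e
    fin_cases i <;> fin_cases j <;> first | exact absurd rfl h | (simp at e; first
      | exact nz 0 (by omega) | exact nz 1 (by omega) | exact nz 2 (by omega)
      | exact nz 3 (by omega) | exact nz 4 (by omega) | exact nz 5 (by omega)
      | exact hx 0 3 (by decide) (by decide) (by omega)
      | exact hx 0 4 (by decide) (by decide) (by omega)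
      | exact hx 0 5 (by decide) (by decide) (by omega)
      | exact hx 1 3 (by decide) (by decide) (by omega)
      | exact hx 1 4 (by decide) (by decide) (by omega)
      | exact hx 1 5 (by decide) (by decide) (by omega)
      | exact hx 2 3 (by decide) (by decide) (by omega)
      | exact hx 2 4 (by decide) (by decide) (by omega)
      | exact hx 2 5 (by decide) (by decide) (by omega))
  refine cmp _ _ (fun i j h => ?_) (fun i j k a b c h => ?_)
  · have := P i j h
    fin_cases i <;> fin_cases j <;> first | exact absurd rfl h | simpa using this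
  · fin_cases i <;> fin_cases j <;> first | exact absurd rfl a | (fin_cases k <;>
      first | exact absurd rfl b | exact absurd rfl c | rfl | (exfalso; simp at h; first
      | exact hx 0 3 (by decide) (by decide) (by omega)
      | exact hx 0 4 (by decide) (by decide) (by omega)
      | exact hx 0 5 (by decide) (by decide) (by omega)
      | exact hx 1 3 (by decide) (by decide) (by omega)
      | exact hx 1 4 (by decide) (by decide) (by omega)
      | exact hx 1 5 (by decide) (by decide) (by omega)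
      | exact hx 2 3 (by decide) (by decide) (by omega)
      | exact hx 2 4 (by decide) (by decide) (by omega)
      | exact hx 2 5 (by decide) (by decide) (by omega)))

lemma L_one (y : Fin 6 → ℤ) (nz : ∀ i, y i ≠ 0) (h1 : y 4 + y 5 = 0)
    (hp : ∀ a b : Fin 6, a ≠ b → a ≠ 4 → a ≠ 5 → b ≠ 4 → b ≠ 5 → y a + y b ≠ 0)
    (hx : ∀ a : Fin 6, a.1 < 4 → (y 4).natAbs ≠ (y a).natAbs) (h3 : NoTri y) : 0 ≤ KK y := by
  rw [← v3]
  have x0 := hx 0 (by decide); have x1 := hx 1 (by decide)
  have x2 := hx 2 (by decide); have x3 := hx 3 (by decide)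
  refine cmp _ _ (fun i j h => ?_) (fun i j k a b c h => (h3 i j k a b c h).elim)
  have := hp i j h
  fin_cases i <;> fin_cases j <;> first | exact absurd rfl h | (simp at this ⊢; omega)

lemma L_match (y : Fin 6 → ℤ) (nz : ∀ i, y i ≠ 0) (h1 : y 0 + y 1 = 0) (h2 : y 2 + y 3 = 0)
    (h4 : y 4 + y 5 = 0) (h3 : NoTri y) : 0 ≤ KK y := by
  have n0 := nz 0; have n2 := nz 2; have n4 := nz 4
  have key : ∀ p : ℤ × ℤ, p.1 ≠ 0 → p.2 ≠ 0 → (y 2 = y 0 ↔ p.1 = 1) → (y 2 = -y 0 ↔ p.1 = -1) →
      (y 4 = y 0 ↔ p.2 = 1) → (y 4 = -y 0 ↔ p.2 = -1) → (y 4 = y 2 ↔ p.2 = p.1) →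
      (y 4 = -y 2 ↔ p.2 = -p.1) → KK ![1, -1, p.1, -p.1, p.2, -p.2] ≤ KK y := by
    rintro ⟨a, b⟩ a0 b0 e1 e2 e3 e4 e5 e6
    refine cmp _ _ (fun i j h => ?_) (fun i j k a b c h => (h3 i j k a b c h).elim)
    simp only at *
    fin_cases i <;> fin_cases j <;> first | exact absurd rfl h | (simp; omega)
  have v := v4
  simp only [List.mem_cons, List.not_mem_nil, or_false, forall_eq_or_imp, forall_eq] at v
  obtain ⟨a1, a2, a3, a4, a5, a6, a7, a8, a9, a10, a11⟩ := v
  by_cases c1 : y 2 = y 0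
  · by_cases c2 : y 4 = y 0
    · exact a1.trans (key (1, 1) (by simp) (by simp) (by omega) (by omega) (by omega) (by omega)
        (by omega) (by omega))
    by_cases c3 : y 4 = -y 0
    · exact a2.trans (key (1, -1) (by simp) (by simp) (by omega) (by omega) (by omega) (by omega)
        (by omega) (by omega))
    · exact a3.trans (key (1, 99) (by simp) (by simp) (by omega) (by omega) (by omega) (by omega)
        (by omega) (by omega))
  by_cases c1' : y 2 = -y 0
  · by_cases c2 : y 4 = y 0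
    · exact a4.trans (key (-1, 1) (by simp) (by simp) (by omega) (by omega) (by omega) (by omega)
        (by omega) (by omega))
    by_cases c3 : y 4 = -y 0
    · exact a5.trans (key (-1, -1) (by simp) (by simp) (by omega) (by omega) (by omega) (by omega)
        (by omega) (by omega))
    · exact a6.trans (key (-1, 99) (by simp) (by simp) (by omega) (by omega) (by omega) (by omega)
        (by omega) (by omega))
  by_cases c2 : y 4 = y 0
  · exact a7.trans (key (9, 1) (by simp) (by simp) (by omega) (by omega) (by omega) (by omega)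
      (by omega) (by omega))
  by_cases c3 : y 4 = -y 0
  · exact a8.trans (key (9, -1) (by simp) (by simp) (by omega) (by omega) (by omega) (by omega)
      (by omega) (by omega))
  by_cases c4 : y 4 = y 2
  · exact a9.trans (key (9, 9) (by simp) (by simp) (by omega) (by omega) (by omega) (by omega)
      (by omega) (by omega))
  by_cases c5 : y 4 = -y 2
  · exact a10.trans (key (9, -9) (by simp) (by simp) (by omega) (by omega) (by omega) (by omega)
      (by omega) (by omega))
  · exact a11.trans (key (9, 99) (by simp) (by simp) (by omega) (by omega) (by omega) (by omega)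
      (by omega) (by omega))

end Pool.Agent.H.MP_e4803a_nt
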