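import Pool.Agent.H.MP_e4803a_nt.A

open Finset

namespace Pool.Agent.H.MP_e4803a_nt

def B1 (y : Fin 6 → ℤ) : Prop :=
  y 0 + y 1 + y 2 = 0 ∧ (y 3).natAbs = (y 0).natAbs ∧ y 3 + y 4 + y 5 = 0

def B2 (y : Fin 6 → ℤ) : Prop :=
  (y 0).natAbs ≤ 3 * (y 1).natAbs ∧ (y 1).natAbs ≤ (y 0).natAbs ∧ y 0 + y 1 ≠ 0 ∧
    y 0 + y 1 + y 2 + y 3 = 0 ∧ ((y 4).natAbs = (y 0).natAbs ∨ (y 4).natAbs = (y 1).natAbs ∨
      (y 4).natAbs = (y 2).natAbs ∨ (y 4).natAbs = (y 3).natAbs) ∧ y 4 + y 5 = 0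

lemma tot_perm (y : Fin 6 → ℤ) (σ : Equiv.Perm (Fin 6)) : ∑ i, (y ∘ σ) i = ∑ i, y i :=
  Equiv.sum_comp σ y

lemma NoTri.perm {y : Fin 6 → ℤ} (h : NoTri y) (σ : Equiv.Perm (Fin 6)) : NoTri (y ∘ σ) :=
  fun i j k a b c => h _ _ _ (σ.injective.ne a) (σ.injective.ne b) (σ.injective.ne c)

lemma ex3 (i j k : Fin 6) (a : i ≠ j) (b : i ≠ k) (c : j ≠ k) :
    ∃ σ : Equiv.Perm (Fin 6), σ 0 = i ∧ σ 1 = j ∧ σ 2 = k := by
  obtain ⟨σ, h⟩ := Equiv.Perm.exists_extending_pair (f := (![0, 1, 2] : Fin 3 → Fin 6))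
    (g := ![i, j, k]) (by decide) (by
      intro u v; fin_cases u <;> fin_cases v <;> simp_all [eq_comm])
  exact ⟨σ, h 0, h 1, h 2⟩

lemma ex4 (i j k l : Fin 6) (a : i ≠ j) (b : i ≠ k) (c : i ≠ l) (d : j ≠ k) (e : j ≠ l)
    (f : k ≠ l) : ∃ σ : Equiv.Perm (Fin 6), σ 0 = i ∧ σ 1 = j ∧ σ 4 = k ∧ σ 5 = l := by
  obtain ⟨σ, h⟩ := Equiv.Perm.exists_extending_pair (f := (![0, 1, 4, 5] : Fin 4 → Fin 6))
    (g := ![i, j, k, l]) (by decide) (by
      intro u v; fin_cases u <;> fin_cases v <;> simp_all [eq_comm])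
  exact ⟨σ, h 0, h 1, h 2, h 3⟩

lemma ex2 (i j : Fin 6) (a : i ≠ j) : ∃ σ : Equiv.Perm (Fin 6), σ 4 = i ∧ σ 5 = j := by
  obtain ⟨σ, h⟩ := Equiv.Perm.exists_extending_pair (f := (![4, 5] : Fin 2 → Fin 6))
    (g := ![i, j]) (by decide) (by
      intro u v; fin_cases u <;> fin_cases v <;> simp_all [eq_comm])
  exact ⟨σ, h 0, h 1⟩

lemma M_tri (y : Fin 6 → ℤ) (nz : ∀ i, y i ≠ 0) (ht : ∑ i, y i = 0) (h1 : y 0 + y 1 + y 2 = 0)
    (hb : ∀ σ : Equiv.Perm (Fin 6), ¬ B1 (y ∘ σ)) : 0 ≤ KK y := by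
  rw [Fin.sum_univ_six] at ht
  refine L_tri y nz h1 (by omega) fun a d ha hd e => ?_
  refine hb (Equiv.swap 0 a * Equiv.swap 3 d) ?_
  fin_cases a <;> fin_cases d <;> first | (exfalso; revert ha hd; decide) |
    (simp [B1, Equiv.swap_apply_def] at e ⊢; omega)

lemma M_pair (y : Fin 6 → ℤ) (nz : ∀ i, y i ≠ 0) (ht : ∑ i, y i = 0) (h1 : y 4 + y 5 = 0)
    (h3 : NoTri y) (hb : ∀ σ : Equiv.Perm (Fin 6), ¬ B2 (y ∘ σ)) : 0 ≤ KK y := by
  by_cases hp : ∀ a b : Fin 6, a ≠ b → a ≠ 4 → a ≠ 5 → b ≠ 4 → b ≠ 5 → y a + y b ≠ 0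
  · have : ∃ i j : Fin 6, i ≠ j ∧ i ≠ 4 ∧ i ≠ 5 ∧ j ≠ 4 ∧ j ≠ 5 ∧
        (y i).natAbs ≤ 3 * (y j).natAbs ∧ (y j).natAbs ≤ (y i).natAbs := by
      by_contra hc
      push Not at hc
      rw [Fin.sum_univ_six] at ht
      have a01 := hc 0 1 (by decide) (by decide) (by decide) (by decide) (by decide)
      have a10 := hc 1 0 (by decide) (by decide) (by decide) (by decide) (by decide)
      have a02 := hc 0 2 (by decide) (by decide) (by decide) (by decide) (by decide)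
      have a20 := hc 2 0 (by decide) (by decide) (by decide) (by decide) (by decide)
      have a03 := hc 0 3 (by decide) (by decide) (by decide) (by decide) (by decide)
      have a30 := hc 3 0 (by decide) (by decide) (by decide) (by decide) (by decide)
      have a12 := hc 1 2 (by decide) (by decide) (by decide) (by decide) (by decide)
      have a21 := hc 2 1 (by decide) (by decide) (by decide) (by decide) (by decide)
      have a13 := hc 1 3 (by decide) (by decide) (by decide) (by decide) (by decide)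
      have a31 := hc 3 1 (by decide) (by decide) (by decide) (by decide) (by decide)
      have a23 := hc 2 3 (by decide) (by decide) (by decide) (by decide) (by decide)
      have a32 := hc 3 2 (by decide) (by decide) (by decide) (by decide) (by decide)
      have t0 : (y 0).natAbs ≤ (y 1).natAbs + (y 2).natAbs + (y 3).natAbs := by
        clear a01 a10 a02 a20 a03 a30 a12 a21 a13 a31 a23 a32; omega
      have t1 : (y 1).natAbs ≤ (y 0).natAbs + (y 2).natAbs + (y 3).natAbs := by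
        clear a01 a10 a02 a20 a03 a30 a12 a21 a13 a31 a23 a32; omega
      have t2 : (y 2).natAbs ≤ (y 1).natAbs + (y 0).natAbs + (y 3).natAbs := by
        clear a01 a10 a02 a20 a03 a30 a12 a21 a13 a31 a23 a32; omega
      have t3 : (y 3).natAbs ≤ (y 1).natAbs + (y 2).natAbs + (y 0).natAbs := by
        clear a01 a10 a02 a20 a03 a30 a12 a21 a13 a31 a23 a32; omega
      generalize (y 0).natAbs = a at *
      generalize (y 1).natAbs = b at *
      generalize (y 2).natAbs = c at *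
      generalize (y 3).natAbs = d at *
      omega
    obtain ⟨i, j, a, b, c, d, e, f, g⟩ := this
    obtain ⟨σ, s0, s1, s4, s5⟩ := ex4 i j 4 5 a b c d e (by decide)
    rw [← KK_perm y σ]
    have t := tot_perm y σ
    rw [ht, Fin.sum_univ_six] at t
    have hb' := hb σ
    have h45 : (y ∘ σ) 4 + (y ∘ σ) 5 = 0 := by simpa [s4, s5] using h1
    refine L_one _ (fun i => nz _) h45 (fun u v a1 a2 a3 a4 a5 => ?_) (fun u hu e' => hb' ?_)
      (h3.perm σ)
    · refine hp _ _ (σ.injective.ne a1) ?_ ?_ ?_ ?_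
      · rw [← s4]; exact σ.injective.ne a2
      · rw [← s5]; exact σ.injective.ne a3
      · rw [← s4]; exact σ.injective.ne a4
      · rw [← s5]; exact σ.injective.ne a5
    · refine ⟨by simpa [s0, s1] using f, by simpa [s0, s1] using g,
        by simpa [s0, s1] using hp i j a b c d e, by omega, ?_, h45⟩
      fin_cases u <;> first | (exfalso; revert hu; decide) | (simp at e' ⊢; simp [e'])
  · push Not at hp
    obtain ⟨i, j, a, b, c, d, e, f⟩ := hp
    obtain ⟨σ, s0, s1, s4, s5⟩ := ex4 i j 4 5 a b c d e (by decide)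
    rw [← KK_perm y σ]
    have t := tot_perm y σ
    rw [ht, Fin.sum_univ_six] at t
    have h45 : (y ∘ σ) 4 + (y ∘ σ) 5 = 0 := by simpa [s4, s5] using h1
    have h01 : (y ∘ σ) 0 + (y ∘ σ) 1 = 0 := by simpa [s0, s1] using f
    exact L_match _ (fun i => nz _) h01 (by omega) h45 (h3.perm σ)

lemma M_all (y : Fin 6 → ℤ) (nz : ∀ i, y i ≠ 0) (ht : ∑ i, y i = 0)
    (hb1 : ∀ σ : Equiv.Perm (Fin 6), ¬ B1 (y ∘ σ))
    (hb2 : ∀ σ : Equiv.Perm (Fin 6), ¬ B2 (y ∘ σ)) : 0 ≤ KK y := by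
  by_cases h3 : NoTri y
  · by_cases h2 : ∀ i j, i ≠ j → y i + y j ≠ 0
    · exact le_trans (by norm_num) (L_none y h2 h3)
    · push Not at h2
      obtain ⟨i, j, a, e⟩ := h2
      obtain ⟨σ, s4, s5⟩ := ex2 i j a
      rw [← KK_perm y σ]
      exact M_pair _ (fun i => nz _) (by rw [tot_perm, ht]) (by simpa [s4, s5] using e)
        (h3.perm σ) (fun τ => hb2 (σ * τ))
  · unfold NoTri at h3
    push Not at h3
    obtain ⟨i, j, k, a, b, c, e⟩ := h3
    obtain ⟨σ, s0, s1, s2⟩ := ex3 i j k a b c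
    rw [← KK_perm y σ]
    exact M_tri _ (fun i => nz _) (by rw [tot_perm, ht]) (by simpa [s0, s1, s2] using e)
      (fun τ => hb1 (σ * τ))

end Pool.Agent.H.MP_e4803a_nt
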