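import Pool.Agent.H.MP_e4803a_nt.B

open Finset

namespace Pool.Agent.H.MP_e4803a_nt

variable {ι : Type} [Fintype ι] [DecidableEq ι]

lemma sum_cons {n : ℕ} (F : (Fin (n + 1) → ι) → ℤ) :
    ∑ x, F x = ∑ a, ∑ x : Fin n → ι, F (Fin.cons a x) := by
  rw [← Equiv.sum_comp (Fin.consEquiv (fun _ => ι)) F, Fintype.sum_prod_type]
  rfl

lemma sum6 (f : ι → ι → ι → ι → ι → ι → ℤ) :
    ∑ x : Fin 6 → ι, f (x 0) (x 1) (x 2) (x 3) (x 4) (x 5) =
      ∑ a, ∑ b, ∑ c, ∑ d, ∑ e, ∑ g, f a b c d e g := by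
  simp only [sum_cons, Fintype.sum_unique]
  rfl

def NN (z : ι → ℤ) (r : ℕ) : ℤ := ∑ x : Fin r → ι, ind (∑ i, z (x i))

lemma N2 (z : ι → ℤ) : NN z 2 = ∑ a, ∑ b, ind (z a + z b) := by
  simp only [NN, sum_cons, Fintype.sum_unique, Fin.sum_univ_succ]
  simp

lemma N3 (z : ι → ℤ) : NN z 3 = ∑ a, ∑ b, ∑ c, ind (z a + z b + z c) := by
  simp only [NN, Fin.sum_univ_three, sum_cons, Fintype.sum_unique]
  rfl

lemma N4 (z : ι → ℤ) : NN z 4 = ∑ a, ∑ b, ∑ c, ∑ d, ind (z a + z b + z c + z d) := by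
  simp only [NN, Fin.sum_univ_four, sum_cons, Fintype.sum_unique]
  rfl

def Q (z : ι → ℤ) : ℤ := NN z 6 - 15 * (NN z 2 * NN z 4) - 10 * (NN z 3 * NN z 3) +
  30 * (NN z 2 * (NN z 2 * NN z 2))

lemma Q_eq (z : ι → ℤ) : Q z = ∑ x : Fin 6 → ι, ind (∑ i, z (x i)) * K1 (z ∘ x) := by
  have h2 : NN z 2 * NN z 4 = ∑ x : Fin 6 → ι, ind (z (x 0) + z (x 1)) *
      ind (z (x 2) + z (x 3) + z (x 4) + z (x 5)) := by
    rw [sum6 (fun a b c d e g => ind (z a + z b) * ind (z c + z d + z e + z g)), N2, N4]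
    simp only [← mul_sum, ← sum_mul]
  have h3 : NN z 3 * NN z 3 = ∑ x : Fin 6 → ι, ind (z (x 0) + z (x 1) + z (x 2)) *
      ind (z (x 3) + z (x 4) + z (x 5)) := by
    rw [sum6 (fun a b c d e g => ind (z a + z b + z c) * ind (z d + z e + z g)), N3]
    simp only [← mul_sum, ← sum_mul]
  have h4 : NN z 2 * (NN z 2 * NN z 2) = ∑ x : Fin 6 → ι, ind (z (x 0) + z (x 1)) *
      (ind (z (x 2) + z (x 3)) * ind (z (x 4) + z (x 5))) := by
    rw [sum6 (fun a b c d e g => ind (z a + z b) * (ind (z c + z d) * ind (z e + z g))), N2]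
    simp only [← mul_sum, ← sum_mul]
  rw [Q, h4, h2, h3, NN, mul_sum, mul_sum, mul_sum, ← sum_sub_distrib, ← sum_sub_distrib,
    ← sum_add_distrib]
  refine sum_congr rfl fun x _ => ?_
  simp only [K1, ind, Fin.sum_univ_six, Function.comp]
  split_ifs <;> omega

lemma sum_perm (F : (Fin 6 → ι) → ℤ) (σ : Equiv.Perm (Fin 6)) :
    ∑ x : Fin 6 → ι, F (x ∘ σ) = ∑ x, F x :=
  Equiv.sum_comp (Equiv.arrowCongr σ.symm (Equiv.refl ι)) F

lemma Q_sym (z : ι → ℤ) : 720 * Q z = ∑ x : Fin 6 → ι, ind (∑ i, z (x i)) * KK (z ∘ x) := by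
  simp only [KK, mul_sum]
  rw [sum_comm]
  have : ∀ σ : Equiv.Perm (Fin 6), ∑ x : Fin 6 → ι, ind (∑ i, z (x i)) * K1 ((z ∘ x) ∘ σ) = Q z := by
    intro σ
    rw [Q_eq, ← sum_perm (fun x => ind (∑ i, z (x i)) * K1 (z ∘ x)) σ]
    refine sum_congr rfl fun x _ => ?_
    rw [show ∑ i, z ((x ∘ σ) i) = ∑ i, z (x i) from tot_perm (z ∘ x) σ]
    rfl
  simp [this, Fintype.card_perm, Nat.factorial]

def Good (y : Fin 6 → ℤ) : Prop := ∑ i, y i = 0 ∧ (∀ i j, i ≠ j → y i + y j ≠ 0) ∧ NoTri y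

open Classical in
noncomputable def ch (p : Prop) : ℤ := if p then 1 else 0

lemma ch_nonneg (p : Prop) : 0 ≤ ch p := by unfold ch; split_ifs <;> norm_num

lemma ch_pos {p : Prop} (h : p) : ch p = 1 := by simp [ch, h]

lemma ch_neg {p : Prop} (h : ¬ p) : ch p = 0 := by simp [ch, h]

lemma pt (y : Fin 6 → ℤ) (nz : ∀ i, y i ≠ 0) :
    720 * ch (Good y) - 18000 * ∑ σ : Equiv.Perm (Fin 6), (ch (B1 (y ∘ σ)) + ch (B2 (y ∘ σ))) ≤
      ind (∑ i, y i) * KK y := by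
  have p : ∀ σ : Equiv.Perm (Fin 6), 0 ≤ ch (B1 (y ∘ σ)) + ch (B2 (y ∘ σ)) := fun σ =>
    add_nonneg (ch_nonneg _) (ch_nonneg _)
  have s0 : 0 ≤ ∑ σ : Equiv.Perm (Fin 6), (ch (B1 (y ∘ σ)) + ch (B2 (y ∘ σ))) :=
    sum_nonneg fun σ _ => p σ
  by_cases g : Good y
  · have := L_none y g.2.1 g.2.2
    rw [ch_pos g, g.1]
    simp only [ind, if_true]
    omega
  rw [ch_neg g]
  by_cases ht : ∑ i, y i = 0
  swap
  · simp only [ind, ht, if_false]; omega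
  simp only [ind, ht, if_true]
  by_cases hb : ∀ σ : Equiv.Perm (Fin 6), ¬ B1 (y ∘ σ) ∧ ¬ B2 (y ∘ σ)
  · have := M_all y nz ht (fun σ => (hb σ).1) (fun σ => (hb σ).2)
    omega
  · push Not at hb
    obtain ⟨σ, h⟩ := hb
    have h1 := single_le_sum (f := fun σ : Equiv.Perm (Fin 6) =>
      ch (B1 (y ∘ σ)) + ch (B2 (y ∘ σ))) (fun σ _ => p σ) (mem_univ σ)
    have h2 : 1 ≤ ch (B1 (y ∘ σ)) + ch (B2 (y ∘ σ)) := by
      by_cases b : B1 (y ∘ σ)
      · have := ch_nonneg (B2 (y ∘ σ)); rw [ch_pos b]; omega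
      · rw [ch_neg b, ch_pos (h b)]; omega
    have := KK_ge y
    omega

lemma Q_ge (z : ι → ℤ) (nz : ∀ u, z u ≠ 0) :
    ∑ x : Fin 6 → ι, ch (Good (z ∘ x)) - 18000 * (∑ x : Fin 6 → ι, ch (B1 (z ∘ x)) +
      ∑ x : Fin 6 → ι, ch (B2 (z ∘ x))) ≤ Q z := by
  have h := sum_le_sum (s := univ) fun (x : Fin 6 → ι) _ => pt (z ∘ x) (fun i => nz _)
  have e := Q_sym z
  simp only [Function.comp_apply] at h
  rw [← e, sum_sub_distrib, ← mul_sum, ← mul_sum, sum_comm] at h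
  have : ∀ σ : Equiv.Perm (Fin 6), ∑ x : Fin 6 → ι, (ch (B1 ((z ∘ x) ∘ σ)) + ch (B2 ((z ∘ x) ∘ σ))) =
      ∑ x : Fin 6 → ι, ch (B1 (z ∘ x)) + ∑ x : Fin 6 → ι, ch (B2 (z ∘ x)) := by
    intro σ
    rw [sum_add_distrib, ← sum_perm (fun x => ch (B1 (z ∘ x))) σ,
      ← sum_perm (fun x => ch (B2 (z ∘ x))) σ]
    rfl
  simp only [this] at h
  simp [Fintype.card_perm, Nat.factorial] at h
  omega

lemma bd {α : Type} [Fintype α] {f g : α → ℤ} {A B : ℤ} (h0 : ∀ u, 0 ≤ f u) (hf : ∑ u, f u ≤ A)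
    (hg : ∀ u, g u ≤ B) (hB : 0 ≤ B) : ∑ u, f u * g u ≤ A * B :=
  calc _ ≤ ∑ u, f u * B := sum_le_sum fun u _ => mul_le_mul_of_nonneg_left (hg u) (h0 u)
    _ = (∑ u, f u) * B := (sum_mul _ _ _).symm
    _ ≤ _ := mul_le_mul_of_nonneg_right hf hB

lemma bd2 {f g : ι → ι → ℤ} {A B : ℤ} (h0 : ∀ u v, 0 ≤ f u v) (hf : ∑ u, ∑ v, f u v ≤ A)
    (hg : ∀ u v, g u v ≤ B) (hB : 0 ≤ B) : ∑ u, ∑ v, f u v * g u v ≤ A * B := by
  rw [← Fintype.sum_prod_type'] at hf ⊢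
  exact bd (fun p => h0 _ _) hf (fun p => hg _ _) hB

def Win (x : ℕ) (w : ℤ) : Prop := x ≤ 3 * w.natAbs ∧ w.natAbs ≤ 10 * x

section
variable {z : ι → ℤ} {C : ℤ} (nz : ∀ u, z u ≠ 0) (hC : 0 ≤ C)
  (hW : ∀ x : ℕ, 0 < x → ∑ u, ch (Win x (z u)) ≤ C)
  (hL : ∀ u v, (z v).natAbs < (z u).natAbs → 10 * (z v).natAbs ≤ 9 * (z u).natAbs)
include nz hC hW

lemma mult (w : ℤ) : ∑ u, ch ((z u).natAbs = w.natAbs) ≤ C := by
  by_cases h : w = 0
  · rw [sum_eq_zero fun u _ => ch_neg (by have := nz u; omega)]; exact hC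
  · refine le_trans (sum_le_sum fun u _ => ?_) (hW w.natAbs (by omega))
    by_cases e : (z u).natAbs = w.natAbs
    · rw [ch_pos e, ch_pos ⟨by omega, by omega⟩]
    · rw [ch_neg e]; exact ch_nonneg _

include hL

lemma rep (w : ℤ) : ∑ u, ∑ v, ch (w ≠ 0 ∧ w + z u + z v = 0) ≤ 2 * (C * C) := by
  by_cases h : w = 0
  · simp only [h, ne_eq, not_true, false_and, ch_neg not_false, sum_const_zero]; positivity
  have a : ∑ u, ∑ v, ch (Win w.natAbs (z u)) * ch ((z v).natAbs = (w + z u).natAbs) ≤ C * C := by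
    simp only [← mul_sum]
    exact bd (fun u => ch_nonneg _) (hW _ (by omega)) (fun u => mult nz hC hW _) hC
  have b := a
  rw [sum_comm] at b
  refine le_trans ?_ ((add_le_add a b).trans (two_mul _).ge)
  rw [← sum_add_distrib]
  refine sum_le_sum fun u _ => ?_
  rw [← sum_add_distrib]
  refine sum_le_sum fun v _ => ?_
  have p1 := mul_nonneg (ch_nonneg (Win w.natAbs (z u)))
    (ch_nonneg ((z v).natAbs = (w + z u).natAbs))
  have p2 := mul_nonneg (ch_nonneg (Win w.natAbs (z v)))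
    (ch_nonneg ((z u).natAbs = (w + z v).natAbs))
  by_cases e : w ≠ 0 ∧ w + z u + z v = 0
  swap
  · rw [ch_neg e]; omega
  have l1 := hL u v
  have l2 := hL v u
  obtain ⟨-, e'⟩ := id e
  rw [ch_pos e]
  rcases le_total (z v).natAbs (z u).natAbs with c | c
  · rw [ch_pos (p := Win w.natAbs (z u)) ⟨by omega, by omega⟩,
      ch_pos (p := (z v).natAbs = (w + z u).natAbs) (by omega)]
    omega
  · rw [ch_pos (p := Win w.natAbs (z v)) ⟨by omega, by omega⟩,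
      ch_pos (p := (z u).natAbs = (w + z v).natAbs) (by omega)]
    omega

lemma cnt1 : ∑ x : Fin 6 → ι, ch (B1 (z ∘ x)) ≤ Fintype.card ι * (2 * (C * C) * (C * (2 * (C * C)))) := by
  have h : ∑ x : Fin 6 → ι, ch (B1 (z ∘ x)) ≤ ∑ x : Fin 6 → ι,
      ch (z (x 0) ≠ 0 ∧ z (x 0) + z (x 1) + z (x 2) = 0) * (ch ((z (x 3)).natAbs = (z (x 0)).natAbs) *
        ch (z (x 3) ≠ 0 ∧ z (x 3) + z (x 4) + z (x 5) = 0)) := by
    refine sum_le_sum fun x _ => ?_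
    by_cases b : B1 (z ∘ x)
    · obtain ⟨b1, b2, b3⟩ := id b
      simp only [Function.comp_apply] at b1 b2 b3
      rw [ch_pos b, ch_pos ⟨nz _, b1⟩, ch_pos b2, ch_pos ⟨nz _, b3⟩]; norm_num
    · rw [ch_neg b]; exact mul_nonneg (ch_nonneg _) (mul_nonneg (ch_nonneg _) (ch_nonneg _))
  rw [sum6 (fun a b c d e g => ch (z a ≠ 0 ∧ z a + z b + z c = 0) *
    (ch ((z d).natAbs = (z a).natAbs) * ch (z d ≠ 0 ∧ z d + z e + z g = 0)))] at h
  simp only [← mul_sum] at h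
  refine h.trans ((sum_le_card_nsmul _ _ _ fun a _ => ?_).trans (by rw [nsmul_eq_mul, card_univ]))
  exact bd2 (fun _ _ => ch_nonneg _) (rep nz hC hW hL _) (fun _ _ =>
    bd (fun _ => ch_nonneg _) (mult nz hC hW _) (fun _ => rep nz hC hW hL _) (by positivity))
    (by positivity)

lemma cnt2 : ∑ x : Fin 6 → ι, ch (B2 (z ∘ x)) ≤ Fintype.card ι * (C * (2 * (C * C) * (4 * C * C))) := by
  let f : ι → ι → ι → ι → ι → ι → ℤ := fun a b c d e g => ch (Win (z a).natAbs (z b)) *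
    (ch (z a + z b ≠ 0 ∧ z a + z b + z c + z d = 0) *
      ((ch ((z e).natAbs = (z a).natAbs) + ch ((z e).natAbs = (z b).natAbs) +
        ch ((z e).natAbs = (z c).natAbs) + ch ((z e).natAbs = (z d).natAbs)) *
          ch ((z g).natAbs = (z e).natAbs)))
  have q : ∀ p q r s : Prop, 0 ≤ ch p + ch q + ch r + ch s := fun _ _ _ _ =>
    add_nonneg (add_nonneg (add_nonneg (ch_nonneg _) (ch_nonneg _)) (ch_nonneg _)) (ch_nonneg _)
  have h : ∑ x : Fin 6 → ι, ch (B2 (z ∘ x)) ≤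
      ∑ x : Fin 6 → ι, f (x 0) (x 1) (x 2) (x 3) (x 4) (x 5) := by
    refine sum_le_sum fun x _ => ?_
    by_cases b : B2 (z ∘ x)
    · obtain ⟨b1, b2, b3, b4, b5, b6⟩ := id b
      simp only [Function.comp_apply] at b1 b2 b3 b4 b5 b6
      simp only [f]
      rw [ch_pos b, ch_pos (p := Win _ _) ⟨b1, by omega⟩, ch_pos ⟨b3, b4⟩,
        ch_pos (p := (z (x 5)).natAbs = (z (x 4)).natAbs) (by omega)]
      have c0 := ch_nonneg ((z (x 4)).natAbs = (z (x 0)).natAbs)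
      have c1 := ch_nonneg ((z (x 4)).natAbs = (z (x 1)).natAbs)
      have c2 := ch_nonneg ((z (x 4)).natAbs = (z (x 2)).natAbs)
      have c3 := ch_nonneg ((z (x 4)).natAbs = (z (x 3)).natAbs)
      rcases b5 with e | e | e | e <;> rw [ch_pos e] <;> omega
    · rw [ch_neg b]
      exact mul_nonneg (ch_nonneg _) (mul_nonneg (ch_nonneg _) (mul_nonneg (q _ _ _ _) (ch_nonneg _)))
  rw [sum6 f] at h
  simp only [f, ← mul_sum] at h
  refine h.trans ((sum_le_card_nsmul _ _ _ fun a _ => ?_).trans (by rw [nsmul_eq_mul, card_univ]))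
  refine bd (fun _ => ch_nonneg _) (hW _ (by have := nz a; omega)) (fun b => ?_) (by positivity)
  refine bd2 (fun _ _ => ch_nonneg _) (rep nz hC hW hL _) (fun c d => ?_) (by positivity)
  refine bd (fun _ => q _ _ _ _) ?_ (fun _ => mult nz hC hW _) hC
  simp only [sum_add_distrib]
  have := mult nz hC hW (z a); have := mult nz hC hW (z b)
  have := mult nz hC hW (z c); have := mult nz hC hW (z d)
  linarith

lemma Q_ge' : ∑ x : Fin 6 → ι, ch (Good (z ∘ x)) - 216000 * C ^ 5 * Fintype.card ι ≤ Q z := by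
  have := Q_ge z nz
  have := cnt1 nz hC hW hL
  have := cnt2 nz hC hW hL
  nlinarith
end

end Pool.Agent.H.MP_e4803a_nt
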