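import Pool.Agent.H.MP_e4803a_nt.C
import Pool.Agent.H.MP_5c394f_nt.B

open MeasureTheory ProbabilityTheory Finset Pool.Agent.H.MP_5c394f_nt

namespace Pool.Agent.H.MP_e4803a_nt

lemma rec_mom {X : ℝ → ℝ} (hX : Continuous X) (n : ℕ) :
    ∫ w, X w ^ (n + 1) ∂mu =
      ∑ i ∈ range (n + 1), (n.choose i : ℝ) * kappa (i + 1) X * ∫ w, X w ^ (n - i) ∂mu := by
  have aM : ∀ t, AnalyticAt ℝ (mgf X mu) t := fun t => analyticAt_mgf (mem_int hX t)
  have aL : ∀ t, AnalyticAt ℝ (fun t => Real.log (mgf X mu t)) t := fun t =>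
    analyticAt_cgf (mem_int hX t)
  have e : deriv (mgf X mu) = deriv (fun t => Real.log (mgf X mu t)) * mgf X mu := by
    funext t
    have := (mgf_pos' hX t).ne'
    rw [Pi.mul_apply, deriv.log (aM t).differentiableAt this]
    field_simp
  have h := iteratedDeriv_mgf_zero (mem_int hX 0) (n + 1)
  rw [iteratedDeriv_succ', e, iteratedDeriv_mul (aL 0).deriv.contDiffAt (aM 0).contDiffAt] at h
  refine Eq.trans h.symm (sum_congr rfl fun i _ => ?_)
  rw [iteratedDeriv_mgf_zero (mem_int hX 0), ← iteratedDeriv_succ']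
  rfl

lemma kappa6 {X : ℝ → ℝ} (hX : Continuous X) (m : ℕ → ℝ) (hm : ∀ r, ∫ w, X w ^ r ∂mu = m r)
    (h1 : m 1 = 0) :
    kappa 6 X = m 6 - 15 * (m 2 * m 4) - 10 * (m 3 * m 3) + 30 * (m 2 * (m 2 * m 2)) := by
  have h0 : m 0 = 1 := by rw [← hm]; simp
  have r0 := rec_mom hX 0
  have r1 := rec_mom hX 1
  have r2 := rec_mom hX 2
  have r3 := rec_mom hX 3
  have r5 := rec_mom hX 5
  simp only [hm] at r0 r1 r2 r3 r5
  simp [sum_range_succ, h0, h1, Nat.choose] at r0 r1 r2 r3 r5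
  rw [← r0] at r2 r3 r5
  rw [← r1] at r3 r5
  have : kappa 3 X = m 3 := by linarith
  rw [this] at r5
  have : kappa 4 X = m 4 - 3 * m 2 * m 2 := by linarith
  rw [this] at r5
  linarith

lemma e_prod {r : ℕ} (k : Fin r → ℤ) (w : ℝ) : ∏ i, e (k i) w = e (∑ i, k i) w := by
  simp only [e, ← Complex.exp_sum]
  congr 1
  push_cast
  rw [mul_sum, sum_mul]

lemma mom {ι : Type} [Fintype ι] [DecidableEq ι] (z : ι → ℤ) {X : ℝ → ℝ}
    (hX : ∀ w, (X w : ℂ) = (∑ u, e (z u) w) / 2) (r : ℕ) :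
    ∫ w, X w ^ r ∂mu = (NN z r : ℝ) / 2 ^ r := by
  apply Complex.ofReal_injective
  rw [← integral_complex_ofReal]
  push_cast
  simp only [hX, div_pow, Fintype.sum_pow, e_prod]
  rw [integral_div, integral_finset_sum _ (fun x _ => cont_int (e_cont _))]
  simp only [e_int, NN, ind]
  push_cast
  rfl

lemma kappa_Q {ι : Type} [Fintype ι] [DecidableEq ι] (z : ι → ℤ) (nz : ∀ u, z u ≠ 0) {X : ℝ → ℝ}
    (hc : Continuous X) (hX : ∀ w, (X w : ℂ) = (∑ u, e (z u) w) / 2) :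
    kappa 6 X = (Q z : ℝ) / 64 := by
  rw [kappa6 hc _ (mom z hX) (by simp [NN, ind, nz]), Q]
  push_cast
  ring

end Pool.Agent.H.MP_e4803a_nt
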