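import Pool.Agent.H.MP_e4803a_nt.D

open MeasureTheory Finset Filter Pool.Agent.H.MP_5c394f_nt

namespace Pool.Agent.H.MP_e4803a_nt

noncomputable def et : ℝ := Real.sqrt Real.goldenRatio

lemma s5 : 2.236 < Real.sqrt 5 := Real.lt_sqrt_of_sq_lt (by norm_num)

lemma et_sq : et ^ 2 = Real.goldenRatio := Real.sq_sqrt Real.goldenRatio_pos.le

lemma et_gt : 1.27 < et := Real.lt_sqrt_of_sq_lt (by
  have := s5; unfold Real.goldenRatio; norm_num at this ⊢; linarith)

lemma et_one : 1 ≤ et := by have := et_gt; linarith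

lemma et16 : 45 ≤ et ^ 16 := le_trans (by norm_num) (pow_le_pow_left₀ (by norm_num) et_gt.le 16)

noncomputable def a (k : ℕ) : ℕ := ⌊et ^ k⌋₊

lemma a_pos (k : ℕ) : 1 ≤ a k := Nat.le_floor (by simpa using one_le_pow₀ et_one)

lemma a_mono : Monotone a := fun _ _ h => Nat.floor_mono (pow_le_pow_right₀ et_one h)

lemma a_le (k : ℕ) : (a k : ℝ) ≤ et ^ k := Nat.floor_le (by have := et_one; positivity)

lemma a_step {k l : ℕ} (h : k < l) : 127 * a k < 100 * (a l + 1) := by
  have h1 := a_le k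
  have h2 : et ^ l < a l + 1 := Nat.lt_floor_add_one _
  have h3 : et ^ (k + 1) ≤ et ^ l := pow_le_pow_right₀ et_one h
  have h4 := et_gt
  have h5 : (0 : ℝ) ≤ a k := by positivity
  rw [pow_succ] at h3
  have : (127 * a k : ℝ) < 100 * (a l + 1) := by nlinarith
  exact_mod_cast this

lemma a_16 {k l : ℕ} (h : k + 16 ≤ l) : 45 * a k ≤ a l := by
  refine Nat.le_floor ?_
  have h1 := a_le k
  have h3 : et ^ (k + 16) ≤ et ^ l := pow_le_pow_right₀ et_one h
  have h4 := et16
  have h5 : (0 : ℝ) ≤ a k := by positivity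
  rw [pow_add] at h3
  push_cast
  nlinarith

lemma a_lac {k l : ℕ} (h : a k < a l) : 10 * a k ≤ 9 * a l := by
  have := a_step (a_mono.reflect_lt h)
  omega

lemma lucas (j : ℕ) : ∃ L M : ℤ, Real.goldenRatio ^ j + Real.goldenConj ^ j = L ∧
    Real.goldenRatio ^ (j + 1) + Real.goldenConj ^ (j + 1) = M := by
  induction j with
  | zero => exact ⟨2, 1, by norm_num, by simp⟩
  | succ j ih =>
    obtain ⟨L, M, h1, h2⟩ := ih
    refine ⟨M, L + M, h2, ?_⟩
    push_cast
    linear_combination h1 + h2 + Real.goldenRatio ^ j * Real.goldenRatio_sq +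
      Real.goldenConj ^ j * Real.goldenConj_sq

lemma a_rel (i : ℕ) : a (4 * i + 6) = a (4 * i + 4) + a (4 * i + 2) + 1 := by
  obtain ⟨L, M, h1, h2⟩ := lucas (2 * i + 1)
  set p := Real.goldenConj ^ (2 * i + 1) with hp
  set f := Real.goldenRatio ^ (2 * i + 1) with hf
  have c0 := Real.goldenConj_neg
  have c1 := Real.neg_one_lt_goldenConj
  have c2 := Real.goldenConj_sq
  have p0 : p < 0 := Odd.pow_neg ⟨i, rfl⟩ c0
  have p1 : -1 < p := by
    have : |p| < 1 := by
      rw [hp, abs_pow]; exact pow_lt_one₀ (abs_nonneg _) (abs_lt.2 ⟨c1, by linarith⟩) (by omega)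
    exact (abs_lt.1 this).1
  rw [pow_succ, pow_succ Real.goldenConj, ← hp, ← hf] at h2
  have e1 : et ^ (4 * i + 2) = f := by rw [hf, ← et_sq, ← pow_mul]; congr 1; ring
  have e2 : et ^ (4 * i + 4) = f * Real.goldenRatio := by rw [← e1, ← et_sq, ← pow_add]
  have e3 : et ^ (4 * i + 6) = f * Real.goldenRatio + f := by
    rw [show 4 * i + 6 = 4 * i + 4 + 2 by ring, pow_add, e2, et_sq]
    linear_combination f * Real.goldenRatio_sq
  have fl : ∀ k, (a k : ℤ) = ⌊et ^ k⌋ := fun k =>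
    Int.natCast_floor_eq_floor (by have := et_one; positivity)
  have f1 : (a (4 * i + 2) : ℤ) = L := by
    rw [fl, e1, Int.floor_eq_iff]; constructor <;> linarith
  have f2 : (a (4 * i + 4) : ℤ) = M - 1 := by
    rw [fl, e2, Int.floor_eq_iff]; push_cast; constructor <;> nlinarith
  have f3 : (a (4 * i + 6) : ℤ) = L + M := by
    rw [fl, e3, Int.floor_eq_iff]; push_cast; constructor <;> nlinarith
  omega

noncomputable def zz (n : ℕ) (u : Fin n × Bool) : ℤ := if u.2 then a (u.1 + 1) else -a (u.1 + 1)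

lemma zz_abs (n : ℕ) (u : Fin n × Bool) : (zz n u).natAbs = a (u.1 + 1) := by
  unfold zz; split_ifs <;> simp

lemma zz_nz (n : ℕ) (u : Fin n × Bool) : zz n u ≠ 0 := by
  have := zz_abs n u; have := a_pos (u.1 + 1); omega

lemma zz_W (n x : ℕ) (hx : 0 < x) : ∑ u, ch (Win x (zz n u)) ≤ 32 := by
  simp only [Win, zz_abs]
  rw [Fintype.sum_prod_type]
  simp only [sum_const, card_univ, Fintype.card_bool, nsmul_eq_mul]
  rw [← mul_sum, Fin.sum_univ_eq_sum_range (fun k => ch (x ≤ 3 * a (k + 1) ∧ a (k + 1) ≤ 10 * x))]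
  suffices ∑ k ∈ range n, ch (x ≤ 3 * a (k + 1) ∧ a (k + 1) ≤ 10 * x) ≤ 16 by
    push_cast; linarith
  classical
  by_cases h : ∃ k, x ≤ 3 * a (k + 1) ∧ a (k + 1) ≤ 10 * x
  · have h0 := Nat.find_spec h
    calc _ ≤ ∑ k ∈ range n, if k ∈ Ico (Nat.find h) (Nat.find h + 16) then (1 : ℤ) else 0 := by
          refine sum_le_sum fun k _ => ?_
          by_cases c : x ≤ 3 * a (k + 1) ∧ a (k + 1) ≤ 10 * x
          · rw [ch_pos c, if_pos]
            refine mem_Ico.2 ⟨Nat.find_min' h c, ?_⟩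
            by_contra hc
            have := a_16 (k := Nat.find h + 1) (l := k + 1) (by omega)
            omega
          · rw [ch_neg c]; split_ifs <;> norm_num
      _ ≤ 16 := by
          rw [sum_ite_mem, sum_const, nsmul_eq_mul, mul_one]
          have := card_le_card (inter_subset_right (s₁ := range n)
            (s₂ := Ico (Nat.find h) (Nat.find h + 16)))
          rw [Nat.card_Ico] at this
          omega
  · push Not at h
    rw [sum_eq_zero fun k _ => ch_neg fun c => absurd c.2 (not_le.2 (h k c.1))]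
    norm_num

lemma good (A B A' B' : ℤ) (h1 : 1 ≤ A) (h2 : 1 ≤ B) (h3 : 45 * (B + A + 1) ≤ A')
    (h4 : 45 * (B + A + 1) ≤ B') : Good ![B + A + 1, -B, -A, -(B' + A' + 1), B', A'] := by
  refine ⟨by simp [Fin.sum_univ_six]; ring, fun i j h => ?_, fun i j k a b c => ?_⟩
  · fin_cases i <;> fin_cases j <;> first | exact absurd rfl h | (simp; omega)
  · fin_cases i <;> fin_cases j <;> first | exact absurd rfl a | (fin_cases k <;>
      first | exact absurd rfl b | exact absurd rfl c | (simp; omega) | simp)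

lemma cnt_good (n m : ℕ) (h : 8 * m + 22 ≤ n) :
    (m : ℤ) * m ≤ ∑ x : Fin 6 → Fin n × Bool, ch (Good (zz n ∘ x)) := by
  let F : Fin m × Fin m → Fin 6 → Fin n × Bool := fun p =>
    ![(⟨4 * p.1 + 5, by omega⟩, true), (⟨4 * p.1 + 3, by omega⟩, false),
      (⟨4 * p.1 + 1, by omega⟩, false), (⟨4 * (p.2 + m + 5) + 5, by omega⟩, false),
      (⟨4 * (p.2 + m + 5) + 3, by omega⟩, true), (⟨4 * (p.2 + m + 5) + 1, by omega⟩, true)]
  have inj : Function.Injective F := by
    intro p q e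
    have e0 := congrArg (fun x => (x 0).1.1) e
    have e3 := congrArg (fun x => (x 3).1.1) e
    simp [F] at e0 e3
    exact Prod.ext (Fin.ext e0) (Fin.ext e3)
  have g : ∀ p, Good (zz n ∘ F p) := by
    intro p
    have r1 := a_rel p.1
    have r2 := a_rel (p.2 + m + 5)
    have b1 := a_16 (k := 4 * p.1 + 6) (l := 4 * (p.2 + m + 5) + 2) (by omega)
    have b2 := a_16 (k := 4 * p.1 + 6) (l := 4 * (p.2 + m + 5) + 4) (by omega)
    have := good (a (4 * p.1 + 2)) (a (4 * p.1 + 4)) (a (4 * (p.2 + m + 5) + 2))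
      (a (4 * (p.2 + m + 5) + 4)) (by exact_mod_cast a_pos _) (by exact_mod_cast a_pos _)
      (by omega) (by omega)
    convert this using 1
    funext i
    fin_cases i <;> simp [F, zz, add_assoc] at r1 r2 ⊢ <;> omega
  calc _ = ∑ p, ch (Good (zz n ∘ F p)) := by simp [ch_pos (g _)]
    _ = ∑ x ∈ univ.image F, ch (Good (zz n ∘ x)) := 
      (sum_image (f := fun x => ch (Good (zz n ∘ x))) fun _ _ _ _ e => inj e).symm
    _ ≤ _ := sum_le_sum_of_subset_of_nonneg (subset_univ _) fun _ _ _ => ch_nonneg _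

noncomputable def SS (n : ℕ) (w : ℝ) : ℝ := ∑ k ∈ Icc 1 n, Real.cos (2 * Real.pi * a k * w)

lemma SS_eq (n : ℕ) (w : ℝ) : (SS n w : ℂ) = (∑ u, e (zz n u) w) / 2 := by
  rw [Fintype.sum_prod_type, SS, sum_div, ← Ico_add_one_right_eq_Icc, sum_Ico_eq_sum_range,
    Nat.add_sub_cancel, ← Fin.sum_univ_eq_sum_range
      (fun k => Real.cos (2 * Real.pi * a (1 + k) * w))]
  push_cast
  refine sum_congr rfl fun k _ => ?_
  simp only [Fintype.sum_bool, zz, e, Complex.cos, add_comm 1 k.1]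
  congr 3 <;> simp <;> ring

lemma kap_ge (n : ℕ) (h : 30 ≤ n) :
    (n : ℝ) / 4096 - (60 / 4096 + 6750 * 32 ^ 5) ≤ kappa 6 (SS n) / n := by
  have hc : Continuous (SS n) := by unfold SS; fun_prop
  rw [kappa_Q (zz n) (zz_nz n) hc (SS_eq n)]
  have h1 := Q_ge' (zz_nz n) (by norm_num) (zz_W n) (fun u v => by
    rw [zz_abs, zz_abs]; exact a_lac)
  have h2 := cnt_good n ((n - 22) / 8) (by omega)
  have h3 : n ≤ 8 * ((n - 22) / 8) + 30 := by omega
  generalize (n - 22) / 8 = m at h2 h3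
  have h4 : (m : ℤ) * m - 216000 * 32 ^ 5 * (n * 2) ≤ Q (zz n) := by
    simp only [Fintype.card_prod, Fintype.card_fin, Fintype.card_bool] at h1
    push_cast at h1
    linarith
  have h5 : (m : ℝ) * m - 216000 * 32 ^ 5 * (n * 2) ≤ Q (zz n) := by exact_mod_cast h4
  have h6 : (n : ℝ) ≤ 8 * m + 30 := by exact_mod_cast h3
  have h7 : (30 : ℝ) ≤ n := by exact_mod_cast h
  rw [le_div_iff₀ (by linarith)]
  nlinarith [mul_self_le_mul_self (by linarith : (0 : ℝ) ≤ n - 30) (by linarith : (n : ℝ) - 30 ≤ 8 * m)]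

lemma kap_tend : Tendsto (fun n : ℕ => kappa 6 (SS n) / n) atTop atTop := by
  refine tendsto_atTop_mono' _ (eventually_atTop.2 ⟨30, kap_ge⟩) ?_
  exact tendsto_atTop_add_const_right _ _
    (tendsto_natCast_atTop_atTop.atTop_div_const (by norm_num))

open Polynomial

lemma et4 : et ^ 4 = et ^ 2 + 1 := by
  rw [show et ^ 4 = (et ^ 2) ^ 2 by ring, et_sq, Real.goldenRatio_sq]

lemma et_alg : IsAlgebraic ℚ et := by
  refine IsIntegral.isAlgebraic ⟨X ^ 4 - X ^ 2 - 1, by monicity!, ?_⟩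
  simp [et4]

lemma red (p : ℚ[X]) : ∃ r s t u : ℚ, ∀ x : ℝ, x ^ 2 = Real.goldenRatio →
    aeval x p = r + s * Real.goldenRatio + x * (t + u * Real.goldenRatio) := by
  induction p using Polynomial.induction_on with
  | C c => exact ⟨c, 0, 0, 0, fun x _ => by simp⟩
  | add p q hp hq =>
    obtain ⟨r, s, t, u, h⟩ := hp
    obtain ⟨r', s', t', u', h'⟩ := hq
    exact ⟨r + r', s + s', t + t', u + u', fun x e => by
      rw [map_add, h x e, h' x e]; push_cast; ring⟩
  | monomial n c hp =>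
    obtain ⟨r, s, t, u, h⟩ := hp
    refine ⟨u, t + u, r, s, fun x e => ?_⟩
    rw [pow_succ, ← mul_assoc, map_mul, h x e, aeval_X]
    push_cast
    linear_combination (t + u * Real.goldenRatio) * e + u * Real.goldenRatio_sq

lemma lin {g : ℝ} (hg : Irrational g) {r s : ℚ} (h : r + s * g = 0) : r = 0 ∧ s = 0 := by
  have hs : s = 0 := by
    by_contra hs
    have : (s : ℝ) ≠ 0 := by exact_mod_cast hs
    exact hg ⟨-r / s, by push_cast; field_simp; linarith⟩
  simpa [hs] using h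

lemma conj_root (p : ℚ[X]) (h : aeval et p = 0) : aeval (-et) p = 0 := by
  obtain ⟨r, s, t, u, e⟩ := red p
  rw [e _ et_sq] at h
  rw [e _ (by rw [neg_sq, et_sq])]
  have g := Real.goldenRatio_sq
  have h1 := lin Real.goldenRatio_irrational (r := r ^ 2 + s ^ 2 - (2 * t * u + u ^ 2))
    (s := 2 * r * s + s ^ 2 - (t ^ 2 + u ^ 2 + 2 * t * u + u ^ 2)) (by
      push_cast
      linear_combination (r + s * Real.goldenRatio - et * (t + u * Real.goldenRatio)) * h +
        (t + u * Real.goldenRatio) ^ 2 * et_sq +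
        (2 * t * u + u ^ 2 * (Real.goldenRatio + 1) - s ^ 2) * g)
  have h2 : (r ^ 2 + r * s - s ^ 2) ^ 2 + (t ^ 2 + t * u - u ^ 2) ^ 2 = 0 := by
    obtain ⟨a1, a2⟩ := h1
    have b1 : r ^ 2 + s ^ 2 = 2 * t * u + u ^ 2 := by linarith
    have b2 : 2 * r * s + s ^ 2 = t ^ 2 + u ^ 2 + 2 * t * u + u ^ 2 := by linarith
    calc _ = (r ^ 2 + s ^ 2) ^ 2 + (r ^ 2 + s ^ 2) * (2 * r * s + s ^ 2) -
          (2 * r * s + s ^ 2) ^ 2 + (t ^ 2 + t * u - u ^ 2) ^ 2 := by ring
      _ = 0 := by rw [b1, b2]; ring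
  have h3 : t ^ 2 + t * u - u ^ 2 = 0 := by nlinarith [sq_nonneg (r ^ 2 + r * s - s ^ 2)]
  have h4 : ((t : ℝ) + u * Real.goldenRatio) * (t + u * Real.goldenConj) = 0 := by
    have : (t : ℝ) ^ 2 + t * u - u ^ 2 = 0 := by exact_mod_cast h3
    linear_combination this + t * u * Real.goldenRatio_add_goldenConj +
      u ^ 2 * Real.goldenRatio_mul_goldenConj
  have h5 : t = 0 ∧ u = 0 := by
    rcases mul_eq_zero.1 h4 with c | c
    · exact lin Real.goldenRatio_irrational c
    · exact lin Real.goldenConj_irrational c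
  simpa [h5.1, h5.2] using h

lemma conj_C : aeval ((-et : ℝ) : ℂ) (minpoly ℚ et) = 0 := by
  have := conj_root _ (minpoly.aeval ℚ et)
  rw [show ((-et : ℝ) : ℂ) = algebraMap ℝ ℂ (-et) from rfl, aeval_algebraMap_apply, this, map_zero]

end Pool.Agent.H.MP_e4803a_nt
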